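import Pool.Agent.Helper18.NF.Stmts

set_option autoImplicit false

namespace Pool.Agent.Helper18.NF

open Pool.Agent.Helper14.BSC Polynomial

theorem unv_dyn {k K : Type} [Field k] [Field K] (f : k →+* K) {A B : k[X]} (h : Dyn A B) :
    Dyn (A.map f) (B.map f) := by
  refine ⟨?_, ?_, ?_⟩
  · exact h.cop.map (mapRingHom f)
  · rw [natDegree_map, natDegree_map]
    exact h.deg
  · rw [natDegree_map]
    exact h.pos

/-- the constants -/
noncomputable def unv_kap {k : Type} [Field k] {n : ℕ} (A B : k[X]) (ρ : ℕ → ℚ)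
    (τ : Fin n → (k →+* AlgebraicClosure ℚ)) (I : Finset (Fin n)) (j : ℕ) : AlgebraicClosure ℚ :=
  algebraMap ℚ (AlgebraicClosure ℚ) (ρ j) /
    ∏ i ∈ Iᶜ, τ i (A.leadingCoeff / B.leadingCoeff) ^ (j * B.natDegree)

theorem unv_one (h1 : ST_UNK) (h2 : ST_DSP) {k : Type} [Field k] {n : ℕ} (A B : k[X])
    (hAB : Dyn A B) (ρ : ℕ → ℚ) (hρ : ∀ j, ρ j ≠ 0)
    (x : (Fin n → (k →+* AlgebraicClosure ℚ)) × Finset (Fin n)) :
    ∃ G : ℚ[X], G ≠ 0 ∧ ∀ (L : Type) [Field L] [Algebra (AlgebraicClosure ℚ) L]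
      (z : x.2 → ℕ → L),
    (∀ i, ∀ j, j ≤ n → aeval (z i j) (B.map (x.1 i)) ≠ 0 ∧
      z i (j + 1) = aeval (z i j) (A.map (x.1 i)) / aeval (z i j) (B.map (x.1 i))) →
    (∀ j, 1 ≤ j → j ≤ n →
      ∏ i, aeval (z i j) (B.map (x.1 i)) =
        algebraMap (AlgebraicClosure ℚ) L (unv_kap A B ρ x.1 x.2 j) *
          ∏ i, aeval (z i 0) (B.map (x.1 i))) →
    ∀ i, aeval (z i 0) (G.map (algebraMap ℚ (AlgebraicClosure ℚ))) = 0 := by
  obtain ⟨τ, I⟩ := x
  have hA0 : A ≠ 0 := by
    intro h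
    have := hAB.deg
    rw [h, natDegree_zero] at this
    omega
  have hB0 : B ≠ 0 := by
    intro h
    have := hAB.pos
    rw [h, natDegree_zero] at this
    omega
  obtain ⟨F, hF0, hF⟩ := h1 (AlgebraicClosure ℚ) n I (by
      rw [Fintype.card_coe]
      exact (Finset.card_le_univ I).trans (by simp)) (fun i => A.map (τ i)) (fun i => B.map (τ i))
    (fun i => unv_dyn (τ i) hAB) (unv_kap A B ρ τ I) (fun j => by
      unfold unv_kap
      apply div_ne_zero
      · rw [Ne, map_eq_zero]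
        exact hρ j
      · apply Finset.prod_ne_zero_iff.mpr
        intro i _
        apply pow_ne_zero
        rw [Ne, map_eq_zero]
        exact div_ne_zero (leadingCoeff_ne_zero.mpr hA0) (leadingCoeff_ne_zero.mpr hB0))
  obtain ⟨G, hG0, hG⟩ := h2 F hF0
  refine ⟨G, hG0, fun L _ _ z hz1 hz2 i => ?_⟩
  have h3 := hF L z hz1 hz2 i
  exact aeval_eq_zero_of_dvd_aeval_eq_zero hG h3

theorem st_UNV (h1 : ST_UNK) (h2 : ST_DSP) (h3 : ST_TSQ) : ST_UNV := by
  classical
  intro k _ _ A B hAB ρ hρ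
  have hone := fun x : (Fin (Module.finrank ℚ k) → (k →+* AlgebraicClosure ℚ)) ×
    Finset (Fin (Module.finrank ℚ k)) => unv_one h1 h2 A B hAB ρ hρ x
  choose G hG0 hG using hone
  refine ⟨(∏ x, G x).map (algebraMap ℚ k), ?_, ?_⟩
  · rw [Ne, Polynomial.map_eq_zero]
    exact Finset.prod_ne_zero_iff.mpr fun x _ => hG0 x
  intro p _ T I z hz1 hz2 i hi
  obtain ⟨j, τ, e, he⟩ := h3 k p T
  have hn : T.n = Module.finrank ℚ k := T.deg
  have hσ : ∀ i', j.comp (τ i') = T.σ (e.symm i') := by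
    intro i'
    rw [he, Equiv.apply_symm_apply]
  letI : Algebra (AlgebraicClosure ℚ) ℂ_[p] := j.toAlgebra
  have halg : ∀ a, algebraMap (AlgebraicClosure ℚ) ℂ_[p] a = j a := fun a => rfl
  have hev : ∀ (C : k[X]) (i' : Fin (Module.finrank ℚ k)) (w : ℂ_[p]),
      aeval w (C.map (τ i')) = (C.map (T.σ (e.symm i'))).eval w := by
    intro C i' w
    rw [← hσ, ← Polynomial.map_map, eval_map]
    rfl
  have hrat : ∀ q : ℚ, T.j q = j (algebraMap ℚ (AlgebraicClosure ℚ) q) := by
    intro q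
    have : T.j = j.comp (algebraMap ℚ (AlgebraicClosure ℚ)) := RingHom.ext_rat _ _
    rw [this]
    rfl
  have hA0 : A ≠ 0 := by
    intro h
    have := hAB.deg
    rw [h, natDegree_zero] at this
    omega
  have hB0 : B ≠ 0 := by
    intro h
    have := hAB.pos
    rw [h, natDegree_zero] at this
    omega
  -- products over the index sets
  have hprod : ∀ m : ℕ, ∏ i' : (I.map e.toEmbedding : Finset _),
      aeval (z (e.symm i') m) (B.map (τ i')) = ∏ i ∈ I, (B.map (T.σ i)).eval (z i m) := by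
    intro m
    rw [Finset.prod_coe_sort (I.map e.toEmbedding)
      (fun i' => aeval (z (e.symm i') m) (B.map (τ i'))), Finset.prod_map]
    refine Finset.prod_congr rfl fun i _ => ?_
    rw [hev]
    simp
  have hcompl : ∀ m : ℕ, j (∏ i' ∈ (I.map e.toEmbedding)ᶜ,
      τ i' (A.leadingCoeff / B.leadingCoeff) ^ (m * B.natDegree)) =
      ∏ i ∈ Iᶜ, T.σ i (A.leadingCoeff / B.leadingCoeff) ^ (m * B.natDegree) := by
    intro m
    rw [map_prod]
    refine (Finset.prod_equiv e ?_ ?_).symm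
    · intro i
      simp
    · intro i _
      rw [map_pow, he i]
      rfl
  have hmem : e i ∈ I.map e.toEmbedding := Finset.mem_map_of_mem _ hi
  have key := hG (τ, I.map e.toEmbedding) ℂ_[p] (fun i' m => z (e.symm i') m) (by
      rintro ⟨i', hi'⟩ m hm
      have h5 : e.symm i' ∈ I := by
        rw [Finset.mem_map] at hi'
        obtain ⟨i'', h6, h7⟩ := hi'
        rw [← h7]
        simpa using h6
      obtain ⟨h6, h7⟩ := hz1 (e.symm i') h5 m (by omega)
      refine ⟨?_, ?_⟩
      · show aeval (z (e.symm i') m) (B.map (τ i')) ≠ 0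
        rw [hev]
        exact h6
      · show z (e.symm i') (m + 1) = aeval (z (e.symm i') m) (A.map (τ i')) /
          aeval (z (e.symm i') m) (B.map (τ i'))
        rw [hev, hev]
        exact h7) (by
      intro m hm1 hm2
      have h5 := hz2 m hm1 (by omega)
      show ∏ i' : (I.map e.toEmbedding : Finset _), aeval (z (e.symm i') m) (B.map (τ i')) =
        j (unv_kap A B ρ τ (I.map e.toEmbedding) m) *
          ∏ i' : (I.map e.toEmbedding : Finset _), aeval (z (e.symm i') 0) (B.map (τ i'))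
      rw [hprod, hprod]
      unfold unv_kap
      rw [map_div₀, hcompl, ← hrat]
      have h6 : ∏ i ∈ Iᶜ, T.σ i (A.leadingCoeff / B.leadingCoeff) ^ (m * B.natDegree) ≠ 0 := by
        apply Finset.prod_ne_zero_iff.mpr
        intro i _
        apply pow_ne_zero
        rw [Ne, map_eq_zero]
        exact div_ne_zero (leadingCoeff_ne_zero.mpr hA0) (leadingCoeff_ne_zero.mpr hB0)
      rw [div_mul_eq_mul_div, eq_div_iff h6]
      exact h5) ⟨e i, hmem⟩
  have key2 : aeval (z i 0) ((G (τ, I.map e.toEmbedding)).map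
      (algebraMap ℚ (AlgebraicClosure ℚ))) = 0 := by
    have : aeval (z (e.symm (e i)) 0) ((G (τ, I.map e.toEmbedding)).map
      (algebraMap ℚ (AlgebraicClosure ℚ))) = 0 := key
    rwa [Equiv.symm_apply_apply] at this
  rw [Polynomial.map_map, Polynomial.map_prod, eval_prod]
  apply Finset.prod_eq_zero (Finset.mem_univ (τ, I.map e.toEmbedding))
  have h7 : (T.σ i).comp (algebraMap ℚ k) = j.comp (algebraMap ℚ (AlgebraicClosure ℚ)) :=
    RingHom.ext_rat _ _
  rw [h7, ← Polynomial.map_map, eval_map]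
  exact key2

end Pool.Agent.Helper18.NF
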